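import Pool.Agent.T6.H74.S5.Main

/-!
# `σ(n) = k n + 5` has no solution with at most two distinct prime factors
-/

set_option autoImplicit false

namespace Pool.Agent.Results.MP_026e5e_nt.TwoPrimeFactors

/-- If `n ≥ 1` has at most two distinct prime factors, then `σ(n) ≠ k n + 5` for all `k ≥ 0`. -/
theorem result (n k : ℕ) (hn : 0 < n) (hc : n.primeFactors.card ≤ 2) :
    ∑ d ∈ n.divisors, d ≠ k * n + 5 :=
  Pool.Agent.T6.H74.S5.main n k hn hc

end Pool.Agent.Results.MP_026e5e_nt.TwoPrimeFactors
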